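import Pool.Agent.N352.PF.Cnt

/-!
# PF/BX: size of the boxes over the ring of integers (helper645)
-/

set_option autoImplicit false

open Polynomial NumberField IsDedekindDomain

namespace Pool.Agent.N645.PF

open Pool.Agent.N352.PF
open Pool.Agent.N352.PJ (dd pol dis Dy D2)

lemma sum_side (n : ℕ) : (∑ j ∈ Finset.range n, (n + 1 - j)) * 2 = n * (n + 3) := by
  induction n with
  | zero => simp
  | succ n ih =>
    rw [Finset.sum_range_succ']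
    have e : ∀ j, n + 1 + 1 - (j + 1) = n + 1 - j := fun j => by omega
    simp_rw [e]
    rw [add_mul, ih]
    ring_nf
    omega

lemma sum_dd (g : ℕ) : ∑ j : Fin (2 * g), (2 * g + 1 - (j : ℕ)) = dd g := by
  have h := sum_side (2 * g)
  rw [← Fin.sum_univ_eq_sum_range (fun j => 2 * g + 1 - j)] at h
  unfold dd
  have e : 2 * g * (2 * g + 3) = (2 * g ^ 2 + 3 * g) * 2 := by ring
  omega

lemma ncard_pi {ι α : Type} [Fintype ι] (s : ι → Set α) (hs : ∀ i, (s i).Finite) :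
    {f : ι → α | ∀ i, f i ∈ s i}.Finite ∧
      {f : ι → α | ∀ i, f i ∈ s i}.ncard = ∏ i, (s i).ncard := by
  classical
  refine ⟨Set.Finite.pi' hs, ?_⟩
  have h1 : {f : ι → α | ∀ i, f i ∈ s i} = ↑(Fintype.piFinset fun i => (hs i).toFinset) := by
    ext f
    simp
  rw [h1, Set.ncard_coe_finset, Fintype.card_piFinset]
  exact Finset.prod_congr rfl fun i _ => (Set.ncard_eq_toFinset_card _ (hs i)).symm

lemma prod_pow (g B d : ℕ) :
    ∏ j : Fin (2 * g), (B ^ (2 * g + 1 - (j : ℕ))) ^ d = B ^ (d * dd g) := by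
  rw [Finset.prod_pow, Finset.prod_pow_eq_pow_sum, sum_dd, ← pow_mul, mul_comm]

/-- The box with residues modulo an ideal, as a product. -/
lemma box_eq (F : Type) [Field F] [NumberField F] (g B : ℕ) (I : Ideal (𝓞 F))
    (A : Fin (2 * g) → 𝓞 F) :
    {a : Fin (2 * g) → 𝓞 F | a ∈ Bz F g B ∧ ∀ j : Fin (2 * g), a j - A j ∈ I} =
      {a : Fin (2 * g) → 𝓞 F | ∀ j : Fin (2 * g), a j ∈ {x ∈ Bal F (B ^ (2 * g + 1 - (j : ℕ))) | x - A j ∈ I}} := by
  ext a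
  simp only [Set.mem_ofPred_eq, Bz]
  constructor
  · rintro ⟨h1, h2⟩ j
    exact ⟨h1 j, h2 j⟩
  · intro h
    exact ⟨fun j => (h j).1, fun j => (h j).2⟩

/-- Upper bound for the number of elements of the box in a residue class modulo an ideal. -/
theorem bxi (h1 : S_CU) (F : Type) [Field F] [NumberField F] (g : ℕ) : ∃ C : ℕ, 1 ≤ C ∧
    ∀ (B : ℕ) (I : Ideal (𝓞 F)) (A : Fin (2 * g) → 𝓞 F), I ≠ ⊥ → 1 ≤ B →
    Ideal.absNorm I ≤ (B ^ 2) ^ dg F →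
    {a : Fin (2 * g) → 𝓞 F | a ∈ Bz F g B ∧ ∀ j : Fin (2 * g), a j - A j ∈ I}.Finite ∧
    {a : Fin (2 * g) → 𝓞 F | a ∈ Bz F g B ∧ ∀ j : Fin (2 * g), a j - A j ∈ I}.ncard * Ideal.absNorm I ^ (2 * g) ≤
      C * B ^ (dg F * dd g) := by
  obtain ⟨C₀, hC₀⟩ := h1 F
  refine ⟨(2 * C₀ + 1) ^ (2 * g), Nat.one_le_pow _ _ (by omega), ?_⟩
  intro B I A hI hB hN
  rw [box_eq]
  have h2 : ∀ j : Fin (2 * g), {x ∈ Bal F (B ^ (2 * g + 1 - (j : ℕ))) | x - A j ∈ I}.Finite ∧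
      {x ∈ Bal F (B ^ (2 * g + 1 - (j : ℕ))) | x - A j ∈ I}.ncard * Ideal.absNorm I ≤
        (2 * C₀ + 1) * (B ^ (2 * g + 1 - (j : ℕ))) ^ dg F := by
    intro j
    obtain ⟨a1, a2⟩ := hC₀ (B ^ (2 * g + 1 - (j : ℕ))) I (A j) (Nat.one_le_pow _ _ hB) hI
    refine ⟨a1, a2.trans ?_⟩
    have h3 : Ideal.absNorm I ≤ (B ^ (2 * g + 1 - (j : ℕ))) ^ dg F := by
      refine hN.trans (Nat.pow_le_pow_left (Nat.pow_le_pow_right hB ?_) _)
      have := j.2
      omega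
    nlinarith
  obtain ⟨b1, b2⟩ := ncard_pi _ fun j => (h2 j).1
  refine ⟨b1, ?_⟩
  rw [b2]
  calc (∏ j : Fin (2 * g), {x ∈ Bal F (B ^ (2 * g + 1 - (j : ℕ))) | x - A j ∈ I}.ncard) *
        Ideal.absNorm I ^ (2 * g)
      = ∏ j : Fin (2 * g), ({x ∈ Bal F (B ^ (2 * g + 1 - (j : ℕ))) | x - A j ∈ I}.ncard *
          Ideal.absNorm I) := by
        rw [Finset.prod_mul_distrib, Finset.prod_const, Finset.card_univ, Fintype.card_fin]
    _ ≤ ∏ j : Fin (2 * g), ((2 * C₀ + 1) * (B ^ (2 * g + 1 - (j : ℕ))) ^ dg F) :=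
        Finset.prod_le_prod' fun j _ => (h2 j).2
    _ = (2 * C₀ + 1) ^ (2 * g) * B ^ (dg F * dd g) := by
        rw [Finset.prod_mul_distrib, Finset.prod_const, Finset.card_univ, Fintype.card_fin,
          prod_pow]

lemma Bx_eq (F : Type) [Field F] [NumberField F] (g B W : ℕ) (A : Fin (2 * g) → 𝓞 F) :
    Bx g B W A = {a : Fin (2 * g) → 𝓞 F |
      a ∈ Bz F g B ∧ ∀ j : Fin (2 * g), a j - A j ∈ Ideal.span {(W : 𝓞 F)}} := by
  ext a
  simp only [Bx, Set.mem_ofPred_eq, Ideal.mem_span_singleton]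

theorem bx (h1 : S_CU) (h2 : S_CL) : S_BX := by
  intro F _ _ g
  obtain ⟨C₁, hC₁, k1⟩ := bxi h1 F g
  obtain ⟨C₂, hC₂, k2⟩ := h2 F
  refine ⟨C₁ + C₂ ^ (2 * g) + C₂, by omega, ?_⟩
  intro B W A hW hB
  have hWB : W ≤ B := by
    refine le_trans ?_ hB
    exact Nat.le_mul_of_pos_left _ (by omega)
  have hB1 : 1 ≤ B := by omega
  have hN : Ideal.absNorm (Ideal.span {(W : 𝓞 F)}) = W ^ dg F := by
    rw [Ideal.absNorm_span_natCast, RingOfIntegers.rank]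
  have hW0 : (W : 𝓞 F) ≠ 0 := by exact_mod_cast hW.ne'
  obtain ⟨a1, a2⟩ := k1 B (Ideal.span {(W : 𝓞 F)}) A (by
    rw [Ne, Ideal.span_singleton_eq_bot]
    exact hW0) hB1 (by
    rw [hN]
    refine Nat.pow_le_pow_left ?_ _
    nlinarith)
  rw [← Bx_eq] at a1 a2
  rw [hN, ← pow_mul, mul_comm (dg F)] at a2
  refine ⟨a1, ?_, a2.trans (Nat.mul_le_mul_right _ (by omega))⟩
  have h3 : ∀ j : Fin (2 * g), (B ^ (2 * g + 1 - (j : ℕ))) ^ dg F ≤
      C₂ * {x ∈ Bal F (B ^ (2 * g + 1 - (j : ℕ))) | (W : 𝓞 F) ∣ x - A j}.ncard * W ^ dg F := by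
    intro j
    refine k2 _ W (A j) hW ?_
    have h4 : C₂ * W ≤ B := by
      refine le_trans (Nat.mul_le_mul_right _ (by omega)) hB
    refine h4.trans ?_
    calc B = B ^ 1 := (pow_one B).symm
      _ ≤ _ := Nat.pow_le_pow_right hB1 (by have := j.2; omega)
  have h4 : (Bx g B W A).ncard =
      ∏ j : Fin (2 * g), {x ∈ Bal F (B ^ (2 * g + 1 - (j : ℕ))) | (W : 𝓞 F) ∣ x - A j}.ncard := by
    obtain ⟨C₀, hC₀⟩ := h1 F
    rw [Bx_eq, box_eq]
    have h5 := (ncard_pi (fun j : Fin (2 * g) =>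
      {x ∈ Bal F (B ^ (2 * g + 1 - (j : ℕ))) | x - A j ∈ Ideal.span {(W : 𝓞 F)}}) fun j =>
        (hC₀ (B ^ (2 * g + 1 - (j : ℕ))) _ (A j) (Nat.one_le_pow _ _ hB1) (by
          rw [Ne, Ideal.span_singleton_eq_bot]
          exact hW0)).1).2
    refine h5.trans ?_
    simp only [Ideal.mem_span_singleton]
  have h5 : B ^ (dg F * dd g) ≤ C₂ ^ (2 * g) * (Bx g B W A).ncard * W ^ (2 * g * dg F) := by
    rw [← prod_pow, h4]
    refine (Finset.prod_le_prod' fun j _ => h3 j).trans (le_of_eq ?_)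
    rw [Finset.prod_mul_distrib, Finset.prod_mul_distrib, Finset.prod_const, Finset.prod_const,
      Finset.card_univ, Fintype.card_fin, ← pow_mul, mul_comm (dg F)]
  refine h5.trans ?_
  refine Nat.mul_le_mul_right _ (Nat.mul_le_mul_right _ (by omega))

end Pool.Agent.N645.PF
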